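import Pool.Agent.Helper185.SilverFinal
import Pool.Agent.Helper292.ForceCH

/-!
# A Borel gamma-set none of whose higher powers is Menger for countable Borel covers

Under the continuum hypothesis (which holds in a forcing extension, see the first part) one set of
reals `X` satisfies `S₁(B_Ω, B_Γ)`, the strongest of the Borel selection properties, while no power
`X ^ k`, `k ≥ 2`, satisfies even `S_fin(B_Γ, B)`, the weakest of them. Hence none of the classes
between these two is closed under finite powers, not even if only one fixed power `k ≥ 2` is asked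
for.
-/

set_option autoImplicit false

namespace Pool.Agent.Results.MP_d59834_gt.NoPowerMenger

open Set Pool.Agent.Helper185.Sel Pool.Agent.Helper185.Silver

variable {A B : Type*} [TopologicalSpace A] [TopologicalSpace B]

/-- The property `S_fin(B_Γ, B)` is inherited by continuous images. -/
lemma sfin_image {r : A → B} (hr : Continuous r) (hs : Function.Surjective r)
    (h : Sfin (GammaOf (BorelFam A)) (CovOf (BorelFam A))) :
    Sfin (GammaOf (BorelFam B)) (CovOf (BorelFam B)) := by
  have hinj : Function.Injective (fun u : Set B => r ⁻¹' u) := hs.preimage_injective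
  intro U hU
  obtain ⟨F, hF, hFc⟩ := h (fun n => (fun u : Set B => r ⁻¹' u) '' U n) (by
    intro n
    obtain ⟨⟨h1, h2⟩, ⟨h3, h4⟩, h5, h6⟩ := hU n
    refine ⟨⟨h1.image _, ?_⟩, ⟨?_, ?_⟩, h5.image hinj.injOn, ?_⟩
    · rintro _ ⟨u, hu, rfl⟩
      let _ := borel A
      let _ := borel B
      have _ : BorelSpace A := ⟨rfl⟩
      have _ : BorelSpace B := ⟨rfl⟩
      exact hr.measurable (h2 u hu)
    · rw [eq_univ_iff_forall] at h3 ⊢
      intro x
      obtain ⟨u, hu, hxu⟩ := h3 (r x)
      exact ⟨r ⁻¹' u, ⟨u, hu, rfl⟩, hxu⟩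
    · rintro ⟨u, hu, hu2⟩
      apply h4
      have : u = univ := by
        apply hinj
        simpa using hu2
      rw [← this]
      exact hu
    · intro x
      apply ((h6 (r x)).image (fun u : Set B => r ⁻¹' u)).subset
      rintro _ ⟨⟨u, hu, rfl⟩, hx⟩
      exact ⟨u, ⟨hu, hx⟩, rfl⟩)
  refine ⟨fun n => {u | u ∈ U n ∧ r ⁻¹' u ∈ F n}, fun n => ⟨?_, fun u hu => hu.1⟩, ⟨?_, ?_⟩, ?_, ?_⟩
  · apply Set.Finite.of_finite_image (f := fun u : Set B => r ⁻¹' u)
    · apply (hF n).1.subset
      rintro _ ⟨u, hu, rfl⟩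
      exact hu.2
    · exact hinj.injOn
  · exact (countable_iUnion fun n => (hU n).1.1).mono (iUnion_mono fun n u hu => hu.1)
  · rintro u hu
    obtain ⟨n, hn⟩ := mem_iUnion.1 hu
    exact (hU n).1.2 u hn.1
  · rw [eq_univ_iff_forall]
    intro y
    obtain ⟨x, rfl⟩ := hs y
    have h7 : x ∈ ⋃₀ (⋃ n, F n) := by
      rw [hFc.2.1]
      trivial
    obtain ⟨v, hv, hxv⟩ := h7
    obtain ⟨n, hn⟩ := mem_iUnion.1 hv
    obtain ⟨u, hu, rfl⟩ := (hF n).2 hn
    exact ⟨u, mem_iUnion.2 ⟨n, hu, hn⟩, hxv⟩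
  · intro hu
    obtain ⟨n, hn⟩ := mem_iUnion.1 hu
    exact (hU n).2.1.2 hn.1

/-- The first part says that there is a forcing notion which preserves the first uncountable
ordinal and forces the continuum hypothesis. The second part says that under the continuum
hypothesis there is a set of reals `X` which satisfies `S₁(B_Ω, B_Γ)` and such that no power
`X ^ k` with `k ≥ 2` satisfies `S_fin(B_Γ, B)`; moreover a subset of `X` fails `S_fin(B_Ω, B_Ω)`. -/
theorem result :
    (∃ (P : Type) (_ : Preorder P), Nonempty P ∧ ∀ p : P,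
      p ∈ Pool.Agent.Helper292.ForceCH.OmegaOnePreserved P ∧
      p ∈ Pool.Agent.Helper292.ForceCH.CHHolds P) ∧
    (Cardinal.aleph 1 = Cardinal.continuum.{0} →
    ∃ X : Set ℝ,
      S1 (OmegaOf (BorelFam X)) (GammaOf (BorelFam X)) ∧
      (∀ k : ℕ, 2 ≤ k →
        ¬ Sfin (GammaOf (BorelFam (Fin k → X))) (CovOf (BorelFam (Fin k → X)))) ∧
      ∃ Y : Set ℝ, Y ⊆ X ∧ ¬ Sfin (OmegaOf (BorelFam Y)) (OmegaOf (BorelFam Y))) := by
  constructor
  · obtain ⟨P, i, h1, h2⟩ := Pool.Agent.Helper292.ForceCH.exists_forcing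
    exact ⟨P, i, h1, fun p => ⟨(h2 p).1, (h2 p).2.2⟩⟩
  · intro hCH
    obtain ⟨X, Y, hYX, h1, h2, h3⟩ := exists_real hCH
    refine ⟨X, h1, fun k hk h => h2 ?_, Y, hYX, h3⟩
    refine sfin_image (A := Fin k → X) (r := fun x i => x (Fin.castLE hk i)) ?_ ?_ h
    · exact continuous_pi fun i => continuous_apply _
    · intro y
      refine ⟨fun j => if hj : (j : ℕ) < 2 then y ⟨j, hj⟩ else y 0, ?_⟩
      funext i
      have hi : (i : ℕ) < 2 := i.2
      simp only [Fin.val_castLE, hi, dif_pos, Fin.eta]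

end Pool.Agent.Results.MP_d59834_gt.NoPowerMenger
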